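import Mathlib

namespace Pool.Agent.MP_09d684_lc

open ZFSet

universe u

/-- Formulas of set theory with de Bruijn indices. -/
inductive Fml : Type
  | mem (i j : ℕ) : Fml
  | eq (i j : ℕ) : Fml
  | bot : Fml
  | imp (φ ψ : Fml) : Fml
  | all (φ : Fml) : Fml

/-- Put `x` in front of the assignment `v`. -/
def cons (x : ZFSet.{u}) (v : ℕ → ZFSet.{u}) : ℕ → ZFSet.{u}
  | 0 => x
  | k + 1 => v k

/-- Satisfaction in the structure `(N, ∈)`. -/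
def Sat (N : Set ZFSet.{u}) : Fml → (ℕ → ZFSet.{u}) → Prop
  | .mem i j, v => v i ∈ v j
  | .eq i j, v => v i = v j
  | .bot, _ => False
  | .imp φ ψ, v => Sat N φ v → Sat N ψ v
  | .all φ, v => ∀ x ∈ N, Sat N φ (cons x v)

/-- `M` is a transitive model of ZF (extensionality and foundation are automatic). -/
structure IsZF (M : Set ZFSet.{u}) : Prop where
  trans : ∀ x ∈ M, ∀ y ∈ x, y ∈ M
  upair : ∀ a ∈ M, ∀ b ∈ M, ({a, b} : ZFSet.{u}) ∈ M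
  union : ∀ a ∈ M, ZFSet.sUnion a ∈ M
  inf : omega ∈ M
  power : ∀ a ∈ M, ∃ b ∈ M, ∀ x ∈ M, x ∈ b ↔ x ⊆ a
  sep : ∀ (φ : Fml) (v : ℕ → ZFSet.{u}), (∀ i, v i ∈ M) → ∀ a ∈ M,
    ∃ b ∈ M, ∀ x, x ∈ b ↔ x ∈ a ∧ Sat M φ (cons x v)
  repl : ∀ (φ : Fml) (v : ℕ → ZFSet.{u}), (∀ i, v i ∈ M) → ∀ a ∈ M,
    (∀ x ∈ a, ∃! y, y ∈ M ∧ Sat M φ (cons y (cons x v))) →
    ∃ b ∈ M, ∀ y ∈ M, y ∈ b ↔ ∃ x ∈ a, Sat M φ (cons y (cons x v))

/-- The von Neumann natural numbers. -/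
def nat : ℕ → ZFSet.{u}
  | 0 => ∅
  | n + 1 => insert (nat n) (nat n)

/-- `f` is a function with domain `D` and values in `X`. -/
def IsFn (f : ZFSet.{u}) (D X : Set ZFSet.{u}) : Prop :=
  (∀ p ∈ f, ∃ a ∈ D, ∃ b ∈ X, p = pair a b) ∧ ∀ a ∈ D, ∃! b, pair a b ∈ f

/-- The sequences `ω → X` that lie in `M`. -/
def Seq (M X : Set ZFSet.{u}) : Set ZFSet.{u} := {x | x ∈ M ∧ IsFn x omega X}

/-- The reals (elements of Baire space) of `M`. -/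
def Reals (M : Set ZFSet.{u}) : Set ZFSet.{u} := Seq M omega

/-- The restriction of a sequence to the first `n` coordinates. -/
def restr (x : ZFSet.{u}) (n : ℕ) : ZFSet.{u} :=
  ZFSet.sep (fun p => ∃ k < n, ∃ v, p = pair (nat k) v) x

/-- The moves of `x` with index `i` modulo two are played according to `σ`. -/
def Follows (σ : ZFSet.{u}) (i : ℕ) (x : ZFSet.{u}) : Prop :=
  ∀ n, n % 2 = i → ∀ v, pair (nat n) v ∈ x → pair (restr x n) v ∈ σ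

/-- In `M`, the game of length `ω` on `X` in which player I wins the plays in `A` is determined. -/
def Det (M X A : Set ZFSet.{u}) : Prop :=
  ∃ σ ∈ M, IsFn σ {s | ∃ n, IsFn s (nat n) X} X ∧
    ((∀ x ∈ Seq M X, Follows σ 0 x → x ∈ A) ∨ (∀ x ∈ Seq M X, Follows σ 1 x → x ∉ A))

/-- `M` satisfies the axiom of real determinacy. -/
def ADR (M : Set ZFSet.{u}) : Prop := ∀ A ∈ M, Det M (Reals M) A

/-- `M` has a surjection from its reals onto `k`; for a nonzero ordinal, `k < Θ` in `M`. -/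
def BelowTheta (M : Set ZFSet.{u}) (k : ZFSet.{u}) : Prop :=
  ∃ f ∈ M, IsFn f (Reals M) k ∧ ∀ b ∈ k, ∃ x, pair x b ∈ f

/-- `A` is infinity-Borel in `M`: it occurs in a well-ordered sequence of sets, each of which is
basic clopen, the complement of an earlier set, or a union of earlier sets. -/
def InfBorel (M : Set ZFSet.{u}) (A : ZFSet.{u}) : Prop :=
  ∃ γ ∈ M, IsOrdinal γ ∧ ∃ F ∈ M, IsFn F γ M ∧ (∃ β, pair β A ∈ F) ∧ ∀ β B, pair β B ∈ F →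
    (∃ n m, ∀ x, x ∈ B ↔ x ∈ Reals M ∧ pair (nat n) (nat m) ∈ x) ∨
    (∃ δ ∈ β, ∃ C, pair δ C ∈ F ∧ ∀ x, x ∈ B ↔ x ∈ Reals M ∧ x ∉ C) ∨
    (∃ a ∈ M, a ⊆ β ∧ ∀ x, x ∈ B ↔ ∃ δ ∈ a, ∃ C, pair δ C ∈ F ∧ x ∈ C)

/-- `M` satisfies Woodin's `AD⁺`. -/
structure ADplus (M : Set ZFSet.{u}) : Prop where
  ad : ∀ A ∈ M, Det M omega A
  dc : ∀ R ∈ M, (∀ x ∈ Reals M, ∃ y ∈ Reals M, pair x y ∈ R) → ∃ f ∈ Seq M (Reals M),
    ∀ n a b, pair (nat n) a ∈ f → pair (nat (n + 1)) b ∈ f → pair a b ∈ R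
  borel : ∀ A ∈ M, (∀ x ∈ A, x ∈ Reals M) → InfBorel M A
  ordDet : ∀ l ∈ M, IsOrdinal l → BelowTheta M l → ∀ π ∈ M, IsFn π (Seq M l) (Reals M) →
    (∀ x y, pair x y ∈ π → ∀ n, ∃ m, ∀ x' y', pair x' y' ∈ π → restr x' m = restr x m →
      restr y' n = restr y n) →
    ∀ A ∈ M, Det M l {x | ∃ y ∈ A, pair x y ∈ π}

/-- The subsets of `N` that are definable over `(N, ∈)` with parameters. -/
def Def (N : Set ZFSet.{u}) : Set ZFSet.{u} :=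
  {x | ∃ (φ : Fml) (v : ℕ → ZFSet.{u}), (∀ i, v i ∈ N) ∧ ∀ z, z ∈ x ↔ z ∈ N ∧ Sat N φ (cons z v)}

/-- The level `L_a(P)` of the constructible hierarchy over the transitive closure of `{P}`. -/
def Lh (P a : ZFSet.{u}) : Set ZFSet.{u} :=
  {x | Relation.ReflTransGen (· ∈ ·) x P} ∪ ⋃ b : a, Def (Lh P b.1)
termination_by a
decreasing_by exact b.2

/-- The power set of the reals, computed in `M`. -/
noncomputable def PowR (M : Set ZFSet.{u}) : ZFSet.{u} :=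
  ZFSet.sep (fun A => A ∈ M ∧ ∀ x ∈ A, x ∈ Reals M) (powerset (funs omega omega))

/-- `M` satisfies `V = L(P(ℝ))`. -/
def VeqL (M : Set ZFSet.{u}) : Prop := ∀ x ∈ M, ∃ a ∈ M, IsOrdinal a ∧ x ∈ Lh (PowR M) a

/-- The ideal `Fin ⊗ Fin`. -/
def Fin2 (S : Set (ℕ × ℕ)) : Prop := {n | {j | (n, j) ∈ S}.Infinite}.Finite

/-- The pairs of natural numbers that belong to `A`. -/
def pts (A : ZFSet.{u}) : Set (ℕ × ℕ) := {z | pair (nat z.1) (nat z.2) ∈ A}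

/-- The class of `A` in `P(ω × ω) / (Fin ⊗ Fin)`, computed in `M`. -/
def cls (M : Set ZFSet.{u}) (A : ZFSet.{u}) : ZFSet.{u} :=
  ZFSet.sep (fun B => B ∈ M ∧ Fin2 (symmDiff (pts A) (pts B))) (powerset (prod omega omega))

/-- The forcing conditions: the nonzero classes. -/
def Cond (M : Set ZFSet.{u}) : Set ZFSet.{u} :=
  {p | ∃ A ∈ M, A ⊆ prod omega omega ∧ ¬ Fin2 (pts A) ∧ p = cls M A}

/-- The order of the conditions. -/
def Le (p q : ZFSet.{u}) : Prop := ∃ A ∈ p, ∃ B ∈ q, Fin2 (pts A \ pts B)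

/-- `G` is a filter of conditions that is generic over `M`. -/
structure Generic (M G : Set ZFSet.{u}) : Prop where
  sub : G ⊆ Cond M
  ne : G.Nonempty
  up : ∀ p ∈ G, ∀ q ∈ Cond M, Le p q → q ∈ G
  dir : ∀ p ∈ G, ∀ q ∈ G, ∃ r ∈ G, Le r p ∧ Le r q
  meets : ∀ D ∈ M, (∀ p ∈ Cond M, ∃ q ∈ D, q ∈ Cond M ∧ Le q p) → ∃ p ∈ G, p ∈ D

theorem rank_lt_of_pair {a b t : ZFSet.{u}} (h : pair a b ∈ t) : a.rank < t.rank :=
  (rank_lt_of_mem (show a ∈ ({a} : ZFSet.{u}) by simp)).trans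
    ((rank_lt_of_mem (show ({a} : ZFSet.{u}) ∈ pair a b by simp [pair])).trans (rank_lt_of_mem h))

/-- The value of the name `τ`: the set of values of the `σ` with `(σ, p) ∈ τ` for a `p ∈ G`. -/
noncomputable def val (G : Set ZFSet.{u}) (τ : ZFSet.{u}) : ZFSet.{u} :=
  ZFSet.range fun s : {s : ZFSet.sUnion (ZFSet.sUnion τ) // ∃ p ∈ G, pair s.1 p ∈ τ} => val G s.1.1
termination_by τ.rank
decreasing_by exact s.2.elim fun _ h => rank_lt_of_pair h.2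

/-- The generic extension `M[G]`. -/
def Ext (M G : Set ZFSet.{u}) : Set ZFSet.{u} := {x | ∃ τ ∈ M, val G τ = x}

/-- In `N`, the set of ordinals `x` has order type `k`. -/
def HasOtp (N : Set ZFSet.{u}) (x k : ZFSet.{u}) : Prop :=
  ∃ f ∈ N, IsFn f k x ∧ (∀ b ∈ x, ∃ a, pair a b ∈ f) ∧
    ∀ a a' b b', pair a b ∈ f → pair a' b' ∈ f → a ∈ a' → b ∈ b'

/-- In `N`, `k` is a strong partition cardinal. -/
structure StrongPartition (N : Set ZFSet.{u}) (k : ZFSet.{u}) : Prop where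
  mem : k ∈ N
  ord : IsOrdinal k
  unc : omega ∈ k
  card : ∀ a ∈ k, ¬ ∃ f ∈ N, IsFn f a k ∧ ∀ b ∈ k, ∃ x, pair x b ∈ f
  part : ∀ m ∈ k, nat 1 ∈ m → ∀ c ∈ N, IsFn c {x | x ∈ N ∧ x ⊆ k ∧ HasOtp N x k} m →
    ∃ K ∈ N, K ⊆ k ∧ HasOtp N K k ∧ ∃ i, ∀ x ∈ N, x ⊆ K → HasOtp N x k → pair x i ∈ c

end Pool.Agent.MP_09d684_lc
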