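import Pool.Agent.Mg.F09d684.G002098

namespace Pool.Agent.MP_09d684_lc.OldPreserve

open Pool.Agent.MP_09d684_lc

universe u

/-- Over a transitive model `M` of `ZF` with `AD_ℝ` or `AD⁺`, forcing with
`P(ω × ω) / (Fin ⊗ Fin)` preserves a strong partition cardinal `κ` whenever `κ < Θ`, or
`V = L(P(ℝ))` holds in `M`, or `P(κ)` is covered by an image of an ordinal times `P(ℝ)`. -/
theorem result (M : Set ZFSet.{u}) (hM : IsZF M) (hD : ADR M ∨ ADplus M) (κ : ZFSet.{u})
    (hκ : StrongPartition M κ) (hs : BelowTheta M κ ∨ VeqL M ∨ Covered M κ) (G : Set ZFSet.{u})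
    (hG : Generic M G) : StrongPartition (Ext M G) κ :=
  preserves' M hM hD κ hκ hs G hG

end Pool.Agent.MP_09d684_lc.OldPreserve
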